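import Mathlib
import Pool.Agent.TH813.Ell0

/-!
# Sums over the conjugates of points of an elliptic curve
-/

set_option autoImplicit false

open Filter
open scoped Topology PeriodPair

noncomputable section

namespace Pool.Agent.TH813.Ell

open H667R3 Pool.Agent.W245.EB

variable {L : PeriodPair}

theorem Cj.zero (σ : ℂ →+* ℂ) : Cj L σ 0 0 := Or.inl ⟨zero_mem _, zero_mem _⟩

/-- opposite points -/
lemma add_mem_iff_pt {a b : ℂ} (ha : a ∉ L.lattice) (hb : b ∉ L.lattice) :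
    a + b ∈ L.lattice ↔ ℘[L] a = ℘[L] b ∧ ℘'[L] a = -℘'[L] b := by
  constructor
  · intro h
    have e : a = -b + (a + b) := by ring
    rw [e, wp_add_lattice L h, wp'_add_lattice L h, L.weierstrassP_neg, L.derivWeierstrassP_neg]
    exact ⟨rfl, rfl⟩
  · rintro ⟨h1, h2⟩
    rcases (wp_eq_iff L ha hb).1 h1 with h | h
    · exact h
    · have e : a = b + (a - b) := by ring
      have h3 : ℘'[L] a = ℘'[L] b := by
        conv_lhs => rw [e]
        rw [wp'_add_lattice L h]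
      have h4 : ℘'[L] b = 0 := by
        rw [h3] at h2
        linear_combination (1 / 2 : ℂ) * h2
      have h5 : 2 * b ∈ L.lattice := by
        by_contra h6
        exact wp'_ne_zero L h6 h4
      have e2 : a + b = (a - b) + 2 * b := by ring
      rw [e2]
      exact add_mem h h5

lemma sub_mem_iff_pt {a b : ℂ} (ha : a ∉ L.lattice) (hb : b ∉ L.lattice) :
    a - b ∈ L.lattice ↔ ℘[L] a = ℘[L] b ∧ ℘'[L] a = ℘'[L] b := by
  have hb' : -b ∉ L.lattice := fun h => hb (by simpa using neg_mem h)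
  rw [sub_eq_add_neg, add_mem_iff_pt ha hb', L.weierstrassP_neg, L.derivWeierstrassP_neg, neg_neg]

lemma two_mem_iff {a : ℂ} (_ha : a ∉ L.lattice) : 2 * a ∈ L.lattice ↔ ℘'[L] a = 0 := by
  constructor
  · intro h
    have := wp'_half_eq_zero L h
    rwa [mul_div_cancel_left₀ a two_ne_zero] at this
  · intro h
    by_contra h6
    exact wp'_ne_zero L h6 h

/-- the generic case -/
lemma core_add {σ : ℂ →+* ℂ} (h2 : σ L.g₂ = L.g₂) {u v u' v' : ℂ}
    (hu2 : 2 * u ∉ L.lattice) (hv2 : 2 * v ∉ L.lattice)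
    (hu' : u' ∉ L.lattice) (hv' : v' ∉ L.lattice)
    (hs : u + u' ∉ L.lattice) (hs' : v + v' ∉ L.lattice)
    (hd : u - u' ∉ L.lattice) (hd' : v - v' ∉ L.lattice)
    (hx : ℘[L] v = σ (℘[L] u)) (hy : ℘'[L] v = σ (℘'[L] u))
    (hx' : ℘[L] v' = σ (℘[L] u')) (hy' : ℘'[L] v' = σ (℘'[L] u')) :
    ℘[L] (v + v') = σ (℘[L] (u + u')) ∧ ℘'[L] (v + v') = σ (℘'[L] (u + u')) := by
  constructor
  · rw [wp_add L hu2 hu' hs hd, wp_add L hv2 hv' hs' hd', hx, hy, hx', hy']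
    simp only [map_sub, map_div₀, map_mul, map_pow, map_ofNat, h2]
  · rw [wp'_add L hu2 hu' hs hd, wp'_add L hv2 hv' hs' hd', hx, hy, hx', hy']
    simp only [map_sub, map_add, map_div₀, map_mul, map_pow, map_ofNat, h2]

lemma core_two {σ : ℂ →+* ℂ} (h2 : σ L.g₂ = L.g₂) {u v : ℂ}
    (hu2 : 2 * u ∉ L.lattice) (hv2 : 2 * v ∉ L.lattice)
    (hx : ℘[L] v = σ (℘[L] u)) (hy : ℘'[L] v = σ (℘'[L] u)) :
    ℘[L] (2 * v) = σ (℘[L] (2 * u)) ∧ ℘'[L] (2 * v) = σ (℘'[L] (2 * u)) := by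
  constructor
  · rw [wp_two L hu2, wp_two L hv2, hx, hy]
    simp only [map_sub, map_add, map_neg, map_div₀, map_mul, map_pow, map_ofNat, h2]
  · rw [wp'_two L hu2, wp'_two L hv2, hx, hy]
    simp only [map_sub, map_add, map_neg, map_div₀, map_mul, map_pow, map_ofNat, h2]

/-- the sum of the three values at the half periods -/
lemma half_sum {a b : ℂ} (ha : a ∉ L.lattice) (hb : b ∉ L.lattice) (hs : a + b ∉ L.lattice)
    (hd : a - b ∉ L.lattice) (ha2 : 2 * a ∈ L.lattice) (hb2 : 2 * b ∈ L.lattice) :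
    ℘[L] (a + b) = -℘[L] a - ℘[L] b ∧ ℘'[L] (a + b) = 0 := by
  have e : 2 * (a + b) ∈ L.lattice := by
    rw [mul_add]; exact add_mem ha2 hb2
  have h1 := (two_mem_iff ha).1 ha2
  have h2 := (two_mem_iff hb).1 hb2
  have h3 := (two_mem_iff hs).1 e
  refine ⟨?_, h3⟩
  have c1 := L.derivWeierstrassP_sq a ha
  have c2 := L.derivWeierstrassP_sq b hb
  have c3 := L.derivWeierstrassP_sq (a + b) hs
  rw [h1] at c1
  rw [h2] at c2
  rw [h3] at c3
  have n1 : ℘[L] a - ℘[L] b ≠ 0 := by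
    rw [sub_ne_zero, Ne, wp_eq_iff L ha hb]
    tauto
  have n2 : ℘[L] a - ℘[L] (a + b) ≠ 0 := by
    rw [sub_ne_zero, Ne, wp_eq_iff L ha hs]
    rintro (h | h)
    · apply hb
      have e2 : b = (a + (a + b)) - 2 * a := by ring
      rw [e2]; exact sub_mem h ha2
    · apply hb
      have e2 : b = -(a - (a + b)) := by ring
      rw [e2]; exact neg_mem h
  have n3 : ℘[L] b - ℘[L] (a + b) ≠ 0 := by
    rw [sub_ne_zero, Ne, wp_eq_iff L hb hs]
    rintro (h | h)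
    · apply ha
      have e2 : a = (b + (a + b)) - 2 * b := by ring
      rw [e2]; exact sub_mem h hb2
    · apply ha
      have e2 : a = -(b - (a + b)) := by ring
      rw [e2]; exact neg_mem h
  set x := ℘[L] a
  set y := ℘[L] b
  set z := ℘[L] (a + b)
  have k1 : 4 * (x ^ 2 + x * y + y ^ 2) - L.g₂ = 0 := by
    apply mul_left_cancel₀ n1
    linear_combination -c1 + c2
  have k2 : 4 * (x ^ 2 + x * z + z ^ 2) - L.g₂ = 0 := by
    apply mul_left_cancel₀ n2
    linear_combination -c1 + c3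
  have k3 : x + y + z = 0 := by
    apply mul_left_cancel₀ n3
    linear_combination (1 / 4 : ℂ) * k1 - (1 / 4 : ℂ) * k2
  linear_combination k3

lemma Cj.add_lattice {σ : ℂ →+* ℂ} {u v l l' : ℂ} (h : Cj L σ u v) (hl : l ∈ L.lattice)
    (hl' : l' ∈ L.lattice) : Cj L σ (u + l) (v + l') := by
  rcases h with ⟨h1, h3⟩ | ⟨h1, h3, h4, h5⟩
  · exact Or.inl ⟨add_mem h1 hl, add_mem h3 hl'⟩
  · refine Or.inr ⟨fun h => h1 ((add_mem_lattice_iff L hl).1 h),
      fun h => h3 ((add_mem_lattice_iff L hl').1 h), ?_, ?_⟩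
    · rw [wp_add_lattice L hl, wp_add_lattice L hl', h4]
    · rw [wp'_add_lattice L hl, wp'_add_lattice L hl', h5]

theorem Cj.add {σ : ℂ →+* ℂ} (h2 : σ L.g₂ = L.g₂) {u v u' v' : ℂ}
    (h : Cj L σ u v) (h' : Cj L σ u' v') : Cj L σ (u + u') (v + v') := by
  by_cases hu0 : u ∈ L.lattice
  · have hv0 : v ∈ L.lattice := by
      rcases h with h | h
      · exact h.2
      · exact absurd hu0 h.1
    rw [add_comm u, add_comm v]
    exact h'.add_lattice hu0 hv0
  by_cases hu0' : u' ∈ L.lattice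
  · have hv0' : v' ∈ L.lattice := by
      rcases h' with h | h
      · exact h.2
      · exact absurd hu0' h.1
    exact h.add_lattice hu0' hv0'
  obtain ⟨-, hv0, hx, hy⟩ := h.resolve_left (fun h => hu0 h.1)
  obtain ⟨-, hv0', hx', hy'⟩ := h'.resolve_left (fun h => hu0' h.1)
  have hinj := σ.injective
  have hsum : u + u' ∈ L.lattice ↔ v + v' ∈ L.lattice := by
    rw [add_mem_iff_pt hu0 hu0', add_mem_iff_pt hv0 hv0', hx, hx', hy, hy', ← map_neg,
      hinj.eq_iff, hinj.eq_iff]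
  have hdiff : u - u' ∈ L.lattice ↔ v - v' ∈ L.lattice := by
    rw [sub_mem_iff_pt hu0 hu0', sub_mem_iff_pt hv0 hv0', hx, hx', hy, hy',
      hinj.eq_iff, hinj.eq_iff]
  have htwo : 2 * u ∈ L.lattice ↔ 2 * v ∈ L.lattice := by
    rw [two_mem_iff hu0, two_mem_iff hv0, hy, map_eq_zero]
  have htwo' : 2 * u' ∈ L.lattice ↔ 2 * v' ∈ L.lattice := by
    rw [two_mem_iff hu0', two_mem_iff hv0', hy', map_eq_zero]
  by_cases hs : u + u' ∈ L.lattice
  · exact Or.inl ⟨hs, hsum.1 hs⟩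
  have hs' : v + v' ∉ L.lattice := fun h => hs (hsum.2 h)
  refine Or.inr ⟨hs, hs', ?_⟩
  by_cases hd : u - u' ∈ L.lattice
  · have hd' := hdiff.1 hd
    have e : u + u' = 2 * u' + (u - u') := by ring
    have e' : v + v' = 2 * v' + (v - v') := by ring
    have h3 : 2 * u' ∉ L.lattice := by
      intro h
      exact hs (by rw [e]; exact add_mem h hd)
    have h3' : 2 * v' ∉ L.lattice := fun h => h3 (htwo'.2 h)
    rw [e, e', wp_add_lattice L hd, wp'_add_lattice L hd, wp_add_lattice L hd',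
      wp'_add_lattice L hd']
    exact core_two h2 h3 h3' hx' hy'
  have hd' : v - v' ∉ L.lattice := fun h => hd (hdiff.2 h)
  by_cases h2u : 2 * u ∈ L.lattice
  · by_cases h2u' : 2 * u' ∈ L.lattice
    · obtain ⟨a1, a2⟩ := half_sum hu0 hu0' hs hd h2u h2u'
      obtain ⟨b1, b2⟩ := half_sum hv0 hv0' hs' hd' (htwo.1 h2u) (htwo'.1 h2u')
      rw [a1, a2, b1, b2, hx, hx']
      simp
    · rw [add_comm u, add_comm v]
      rw [add_comm u] at hs
      rw [add_comm v] at hs'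
      refine core_add h2 h2u' (fun h => h2u' (htwo'.2 h)) hu0 hv0 hs hs' ?_ ?_ hx' hy' hx hy
      · intro h
        exact hd (by simpa using neg_mem h)
      · intro h
        exact hd' (by simpa using neg_mem h)
  · exact core_add h2 h2u (fun h => h2u (htwo.2 h)) hu0' hv0' hs hs' hd hd' hx hy hx' hy'

theorem Cj.sum {σ : ℂ →+* ℂ} (h2 : σ L.g₂ = L.g₂) {ι : Type*}
    (s : Finset ι) {u v : ι → ℂ} (h : ∀ i ∈ s, Cj L σ (u i) (v i)) :
    Cj L σ (∑ i ∈ s, u i) (∑ i ∈ s, v i) := by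
  classical
  induction s using Finset.induction_on with
  | empty => simpa using Cj.zero σ
  | insert a s ha ih =>
    rw [Finset.sum_insert ha, Finset.sum_insert ha]
    exact (h a (Finset.mem_insert_self _ _)).add h2
      (ih fun i hi => h i (Finset.mem_insert_of_mem hi))

theorem Cj.exists {σ : ℂ →+* ℂ} (h2 : σ L.g₂ = L.g₂) (h3 : σ L.g₃ = L.g₃) (u : ℂ) :
    ∃ v, Cj L σ u v := by
  by_cases hu : u ∈ L.lattice
  · exact ⟨0, Or.inl ⟨hu, zero_mem _⟩⟩
  obtain ⟨z, hz, hzx⟩ := exists_wp_eq L (σ (℘[L] u))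
  have c1 := L.derivWeierstrassP_sq u hu
  have c2 := L.derivWeierstrassP_sq z hz
  have c3 := congrArg σ c1
  simp only [map_sub, map_mul, map_pow, map_ofNat, h2, h3] at c3
  rw [hzx, ← c3, sq_eq_sq_iff_eq_or_eq_neg] at c2
  rcases c2 with h | h
  · exact ⟨z, Or.inr ⟨hu, hz, hzx, h⟩⟩
  · refine ⟨-z, Or.inr ⟨hu, fun h => hz (by simpa using neg_mem h), ?_, ?_⟩⟩
    · rw [L.weierstrassP_neg, hzx]
    · rw [L.derivWeierstrassP_neg, h, neg_neg]

/-- **Sums over the conjugates**: `E` is a field of complex numbers over which `ℂ` is algebraic. For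
finitely many numbers `x`, nonzero numbers `u` and logarithms of points `v` there is a finite family
of automorphisms of `ℂ` over `E` for which the sums of the conjugates of `x`, the products of the
conjugates of `u` and the sums of (logarithms of) the conjugates of the points belong to `E`. -/
theorem conj_family {E : Type*} [Field E] [Algebra E ℂ] [CharZero E] [Algebra.IsAlgebraic E ℂ]
    (h2 : L.g₂ ∈ (algebraMap E ℂ).range) (h3 : L.g₃ ∈ (algebraMap E ℂ).range)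
    {a b c : ℕ} (x : Fin a → ℂ) (u : Fin b → ℂ) (v : Fin c → ℂ) :
    ∃ (ι : Type) (_ : Fintype ι) (_ : Nonempty ι) (τ : ι → (ℂ ≃ₐ[E] ℂ)) (v' : ι → Fin c → ℂ),
      (∀ j, ∑ i, τ i (x j) ∈ (algebraMap E ℂ).range) ∧
      (∀ j, ∏ i, τ i (u j) ∈ (algebraMap E ℂ).range) ∧
      (∀ i j, Cj L ((τ i : ℂ ≃ₐ[E] ℂ) : ℂ →+* ℂ) (v j) (v' i j)) ∧
      ∀ j, ∑ i, v' i j ∈ L.lattice ∨ (℘[L] (∑ i, v' i j) ∈ (algebraMap E ℂ).range ∧
        ℘'[L] (∑ i, v' i j) ∈ (algebraMap E ℂ).range) := by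
  classical
  have : IsAlgClosure E ℂ := ⟨inferInstance, inferInstance⟩
  have hN : Normal E ℂ := IsAlgClosure.normal E ℂ
  have hGC : IsGalois E ℂ := ⟨⟩
  let S : Set ℂ := Set.range x ∪ Set.range u ∪ (Set.range (fun j => ℘[L] (v j)) ∪
    Set.range (fun j => ℘'[L] (v j)))
  have hSfin : S.Finite := by
    refine Set.Finite.union (Set.Finite.union ?_ ?_) (Set.Finite.union ?_ ?_) <;>
      exact Set.finite_range _
  let M := IntermediateField.adjoin E S
  have hM : FiniteDimensional E M := by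
    have : Finite S := hSfin
    apply IntermediateField.finiteDimensional_adjoin
    intro y _
    exact (Algebra.IsAlgebraic.isAlgebraic y).isIntegral
  let F := IntermediateField.normalClosure E M ℂ
  have hF1 : FiniteDimensional E F := inferInstance
  have hF2 : Normal E F := inferInstance
  have hG : IsGalois E F := ⟨⟩
  have hMF : M ≤ F := by
    intro y hy
    exact M.val.fieldRange_le_normalClosure ⟨⟨y, hy⟩, rfl⟩
  have hSF : ∀ y ∈ S, y ∈ F := fun y hy => hMF (IntermediateField.subset_adjoin _ _ hy)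
  have hx : ∀ j, x j ∈ F := fun j => hSF _ (Or.inl (Or.inl ⟨j, rfl⟩))
  have hu : ∀ j, u j ∈ F := fun j => hSF _ (Or.inl (Or.inr ⟨j, rfl⟩))
  have hv : ∀ j, ℘[L] (v j) ∈ F := fun j => hSF _ (Or.inr (Or.inl ⟨j, rfl⟩))
  have hv' : ∀ j, ℘'[L] (v j) ∈ F := fun j => hSF _ (Or.inr (Or.inr ⟨j, rfl⟩))
  let τ : (F ≃ₐ[E] F) → (ℂ ≃ₐ[E] ℂ) := fun σ => AlgEquiv.liftNormal σ ℂ
  have hτ : ∀ (σ : F ≃ₐ[E] F) (y : F), τ σ (y : ℂ) = ((σ y : F) : ℂ) := fun σ y =>
    AlgEquiv.liftNormal_commutes σ ℂ y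
  have hfix : ∀ (σ : ℂ ≃ₐ[E] ℂ) (y : ℂ), y ∈ (algebraMap E ℂ).range →
      (σ : ℂ →+* ℂ) y = y := by
    rintro σ y ⟨e, rfl⟩
    exact σ.commutes e
  have hex : ∀ (g : F ≃ₐ[E] F) (j : Fin c), ∃ w, Cj L ((τ g : ℂ ≃ₐ[E] ℂ) : ℂ →+* ℂ) (v j) w ∧
      (v j ∈ L.lattice → w = 0) := by
    intro g j
    by_cases hj : v j ∈ L.lattice
    · exact ⟨0, Or.inl ⟨hj, zero_mem _⟩, fun _ => rfl⟩
    · obtain ⟨w, hw⟩ := Cj.exists (hfix (τ g) _ h2) (hfix (τ g) _ h3) (v j)
      exact ⟨w, hw, fun h => absurd h hj⟩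
  choose v' hv'1 hv'2 using hex
  refine ⟨F ≃ₐ[E] F, inferInstance, ⟨AlgEquiv.refl⟩, τ, v', ?_, ?_, hv'1, ?_⟩
  · intro j
    refine ⟨Algebra.trace E F ⟨x j, hx j⟩, ?_⟩
    have h1 := trace_eq_sum_automorphisms (K := E) (L := F) ⟨x j, hx j⟩
    have h4 := congrArg (algebraMap F ℂ) h1
    rw [map_sum, ← IsScalarTower.algebraMap_apply] at h4
    rw [h4]
    exact Finset.sum_congr rfl fun σ _ => (hτ σ ⟨x j, hx j⟩).symm
  · intro j
    refine ⟨Algebra.norm E (⟨u j, hu j⟩ : F), ?_⟩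
    have h1 := Algebra.norm_eq_prod_automorphisms E (⟨u j, hu j⟩ : F)
    have h4 := congrArg (algebraMap F ℂ) h1
    rw [map_prod, ← IsScalarTower.algebraMap_apply] at h4
    rw [h4]
    exact Finset.prod_congr rfl fun σ _ => (hτ σ ⟨u j, hu j⟩).symm
  · intro j
    by_cases hj : v j ∈ L.lattice
    · left
      rw [Finset.sum_congr rfl fun g _ => hv'2 g j hj, Finset.sum_const_zero]
      exact zero_mem _
    have hpt : ∀ g : F ≃ₐ[E] F, v' g j ∉ L.lattice ∧
        ℘[L] (v' g j) = ((g ⟨℘[L] (v j), hv j⟩ : F) : ℂ) ∧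
        ℘'[L] (v' g j) = ((g ⟨℘'[L] (v j), hv' j⟩ : F) : ℂ) := by
      intro g
      obtain ⟨-, k2, k3, k4⟩ := (hv'1 g j).resolve_left (fun h => hj h.1)
      refine ⟨k2, ?_, ?_⟩
      · rw [k3]; exact hτ g ⟨_, hv j⟩
      · rw [k4]; exact hτ g ⟨_, hv' j⟩
    have hR : ∀ ρ : ℂ ≃ₐ[E] ℂ, Cj L (ρ : ℂ →+* ℂ) (∑ g, v' g j) (∑ g, v' g j) := by
      intro ρ
      set h : F ≃ₐ[E] F := AlgEquiv.restrictNormal ρ F with hh
      have hρ : ∀ y : F, ρ (y : ℂ) = ((h y : F) : ℂ) := fun y =>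
        (AlgEquiv.restrictNormal_commutes ρ F y).symm
      have h1 : ∀ g ∈ Finset.univ, Cj L (ρ : ℂ →+* ℂ) (v' g j) (v' (h * g) j) := by
        intro g _
        obtain ⟨a1, a2, a3⟩ := hpt g
        obtain ⟨b1, b2, b3⟩ := hpt (h * g)
        refine Or.inr ⟨a1, b1, ?_, ?_⟩
        · rw [b2, a2]
          exact (hρ _).symm
        · rw [b3, a3]
          exact (hρ _).symm
      have h4 := Cj.sum (hfix ρ _ h2) Finset.univ h1
      have h5 : ∑ g : F ≃ₐ[E] F, v' (h * g) j = ∑ g, v' g j :=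
        Fintype.sum_equiv (Equiv.mulLeft h) _ _ fun g => rfl
      rwa [h5] at h4
    by_cases hR0 : ∑ g, v' g j ∈ L.lattice
    · exact Or.inl hR0
    right
    have hR' : ∀ ρ : ℂ ≃ₐ[E] ℂ, ρ (℘[L] (∑ g, v' g j)) = ℘[L] (∑ g, v' g j) ∧
        ρ (℘'[L] (∑ g, v' g j)) = ℘'[L] (∑ g, v' g j) := by
      intro ρ
      obtain ⟨-, -, k3, k4⟩ := (hR ρ).resolve_left (fun h => hR0 h.1)
      exact ⟨k3.symm, k4.symm⟩
    constructor
    · have := (InfiniteGalois.mem_bot_iff_fixed (k := E) (K := ℂ) (℘[L] (∑ g, v' g j))).2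
        fun ρ => (hR' ρ).1
      exact IntermediateField.mem_bot.1 this
    · have := (InfiniteGalois.mem_bot_iff_fixed (k := E) (K := ℂ) (℘'[L] (∑ g, v' g j))).2
        fun ρ => (hR' ρ).2
      exact IntermediateField.mem_bot.1 this

end Pool.Agent.TH813.Ell
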